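import Pool.Agent.Results.MP_e426f4_ag.ProductsOfConics
import Pool.Agent.U513.AP.LogInt

/-!
# Products of conics over the line: approximation for all constants near the numerators and denominators of Diophantine
# approximations

Let `α ∈ ℝ ^ d` and consider all its approximations `(q, u_1, …, u_d)` with `|q α_i - γ_i - u_i| ≤ q ^ (-τ)`; for `d = 1`, `γ = 0`,
`τ = 1` these contain the denominators and numerators of all the convergents of the continued fraction of `α`, for `τ = 1 / d` all
the best simultaneous approximations, and for larger `τ` the very good approximations of the very well approximable `α`, which form a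
set of dimension `s = (d + 1) / (1 + τ) < d` and of infinite Hausdorff measure in this dimension (Jarník). We show that for all
`α` outside of a set of Hausdorff measure ZERO in the dimension `s` the following holds for all integral polynomials `F` of degree at
least `1` and all nonzero integers `aᵢ`, `bᵢ`: for ALL integers `k ≠ 0` at a distance of at most `(log q) ^ W` from
`g_0 + g q + h_1 u_1 + ⋯ + h_d u_d`, for every integral affine form with `(g, h) ≠ 0` and all these approximations with large `q`, the
local points of `yᵢ² - aᵢ zᵢ² = bᵢ t (F(t) + k)` orthogonal to the algebras `(aᵢ, t)` are approximated by rational points.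

Proof. The theorem `ProductsOfConics` of this page in the starting library bounds the number of the exceptional `|k| ≤ X` by
`X / (log X) ^ U` for all `U`. The integral vectors `(q, u)` with `q ≈ X` and a value of the form near an exceptional number are
counted, and the sets of the `α` approximated by them, cubes of side `2 X ^ (- 1 - τ)`, are used as the covers in the definition of
the Hausdorff measure (`U513/AP/Log`, `LogInt`). The numbers `q`, `u` have the density zero for a given `α`, so that the bound for the
number of exceptions alone does not say anything about them.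
-/

set_option autoImplicit false

open Finset Filter MeasureTheory

namespace Pool.Agent.Results.MP_e426f4_ag.Approximations

open Polynomial
open Pool.Agent.Results.MP_e426f4_ag.ProductsOfConics (WB)

/-- `(q, u)` is an approximation of `α` of exponent `τ` and shift `γ`: `|q α_i - γ_i - u_i| ≤ q ^ (-τ)` for all `i`. -/
def Approx {d : ℕ} (τ : ℝ) (γ α : Fin d → ℝ) (q : ℕ) (u : Fin d → ℤ) : Prop :=
  ∀ i, |(q : ℝ) * α i - γ i - u i| ≤ (q : ℝ) ^ (-τ)

/-- All the integers `k ≠ 0` within `(log q) ^ W` of the values of the integral affine forms `g₀ + g q + ∑ h_i u_i`, `(g, h) ≠ 0`, at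
all the approximations `(q, u)` of `α` of exponent `τ` and shift `γ` with large `q` have the property `G`, for every `W`. -/
def Near {d : ℕ} (τ : ℝ) (γ α : Fin d → ℝ) (G : ℤ → Prop) : Prop :=
  ∀ (W : ℕ) (g₀ g : ℤ) (h : Fin d → ℤ), ¬ (g = 0 ∧ h = 0) → ∀ᶠ q : ℕ in atTop, ∀ u : Fin d → ℤ, Approx τ γ α q u →
    ∀ k : ℤ, k ≠ 0 → |(k : ℝ) - (g₀ + g * q + ∑ i, h i * u i : ℤ)| ≤ Real.log q ^ W → G k

/-- the data: the number of the conics, a polynomial, the coefficients, the primes and the level -/
abbrev Data : Type := Σ r : ℕ, ℤ[X] × (Fin r → ℤ) × (Fin r → ℤ) × Finset Nat.Primes × ℕ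

lemma countable_data : Countable Data := by
  have h : Countable ℤ[X] := by
    rw [← Cardinal.mk_le_aleph0_iff]
    refine (Polynomial.cardinalMk_le_max).trans ?_
    simp
  infer_instance

/-- The degree of `F` is at least `1`, the `aᵢ`, `bᵢ` are not zero, and `T` contains the primes `p` which are at most twice the degree or
divide the leading coefficient of `F`, an `aᵢ` or a `bᵢ`. -/
def Suitable {r : ℕ} (F : ℤ[X]) (a b : Fin r → ℤ) (T : Finset Nat.Primes) : Prop :=
  1 ≤ F.natDegree ∧ (∀ i, a i ≠ 0) ∧ (∀ i, b i ≠ 0) ∧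
    ∀ p : Nat.Primes, ((p : ℕ) ≤ 2 * F.natDegree ∨ ((p : ℕ) : ℤ) ∣ F.leadingCoeff * ∏ i, (a i * b i)) → p ∈ T

/-- **Products of conics near the approximations of almost all points.** For all `d`, `τ ≥ 0` and `γ ∈ ℝ ^ d` there is a set `E` of
Hausdorff measure zero in the dimension `(d + 1) / (1 + τ)` (of Lebesgue measure zero if `d τ ≥ 1`), such that for all `α ∉ E`, all `r`,
all `Suitable` `F`, `a`, `b`, `T` and all `N`, ALL the integers `k ≠ 0` near the integral affine forms at the approximations of `α`
(`Near`) have the property `WB F a b T N k`: approximation of level `N` at the primes of `T` of the local points of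
`yᵢ² - aᵢ zᵢ² = bᵢ t (F(t) + k) ≠ 0` orthogonal to the algebras `(aᵢ, t)`. -/
theorem result : ∀ (d : ℕ) (τ : ℝ) (γ : Fin d → ℝ), 0 ≤ τ →
    ∃ E : Set (Fin d → ℝ), μH[((d : ℝ) + 1) / (1 + τ)] E = 0 ∧ (1 ≤ d * τ → volume E = 0) ∧
      ∀ α, α ∉ E → ∀ (r : ℕ) (F : ℤ[X]) (a b : Fin r → ℤ) (T : Finset Nat.Primes), Suitable F a b T → ∀ N : ℕ,
        Near τ γ α (WB F a b T N) := by
  classical
  intro d τ γ hτ
  have := countable_data
  obtain ⟨E, e1, e2, e3⟩ := Pool.Agent.U513.AP.near_int
    (fun (i : Data) (k : ℤ) => Suitable i.2.1 i.2.2.1 i.2.2.2.1 i.2.2.2.2.1 →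
      WB i.2.1 i.2.2.1 i.2.2.2.1 i.2.2.2.2.1 i.2.2.2.2.2 k) (by
    rintro ⟨r, F, a, b, T, N⟩
    by_cases hc : Suitable F a b T
    · intro U
      obtain ⟨X₀, h⟩ := ProductsOfConics.result r F hc.1 a b hc.2.1 hc.2.2.1 T hc.2.2.2 N U
      refine ⟨X₀, fun X hX => le_trans (Nat.cast_le.2 ?_) (h X hX)⟩
      rw [← Set.ncard_coe_finset]
      refine Set.ncard_le_ncard ?_ (Finset.finite_toSet _)
      rintro k ⟨hk1, hk2⟩
      rw [mem_coe, mem_filter, mem_Icc]
      exact ⟨abs_le.1 hk1, fun hcon => hk2 fun _ => hcon⟩
    · exact Pool.Agent.U513.AP.FewInt.of_true fun k h1 => absurd h1 hc) hτ γ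
  refine ⟨E, e1, e2, fun α hα r F a b T hs N W g₀ g h hgh => ?_⟩
  filter_upwards [e3 α hα ⟨r, F, a, b, T, N⟩ W g₀ g h hgh] with q hq u hu k hk hle
  exact hq u hu k hk hle hs

end Pool.Agent.Results.MP_e426f4_ag.Approximations
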