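import Pool.Agent.U449.BV.O
import Pool.Agent.Results.MP_e426f4_ag.ProductsOfConics

/-!
# Products of conics over the line: approximation near the values of polynomials on arbitrary dense sets

Let `p` be a prime and `f(x, y)` ANY polynomial modulo `p` of degree at most `d` with a monomial which contains both variables (for
example `f = x y`), let `A`, `B` be ARBITRARY sets of residues modulo `p`, `g`, `h` ARBITRARY functions, and `1 ≤ W ≤ p`.
For all but `Θ |A| |B|` of the pairs `(a, b)` in `A × B`, where `Θ ^ 2 = C d e(p) (p / |A| + W p / |B|)`, `e(X) = 1 / (1 + log X) ^ U`, `U` arbitrary,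
ALL integers `k` with `|k|` at a distance of at most `W` from the least residue of `f(a, b) + g(a) + h(b)` are such that the local
points of `yᵢ² - aᵢ zᵢ² = bᵢ t (F(t) + k)` orthogonal to the algebras `(aᵢ, t)` are approximated by rational points.
So this holds for almost all pairs if `A`, `B` are dense and `W` is small in the same sense as the set of the exceptions is sparse.
More generally, this holds for all functions `F(a, b)` with few coincidences (`Rare`).

Since the sets and the functions `g` and `h` are arbitrary, the values have no arithmetic structure, and a value may be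
taken by very many pairs. So the number of the exceptions (starting library) does not give the result directly. Proof: the
inequality of Cauchy and Schwarz; for most pairs `a, a'` the difference `F(a, b) - F(a', b)` is small for few `b`
(`Pool.Agent.U449.BV`).
-/

set_option autoImplicit false

namespace Pool.Agent.Results.MP_e426f4_ag.MixedOnDenseSets

open Polynomial
open Pool.Agent.U449.BV (Rare OnDense on_dense_int_pow residues)
open Pool.Agent.Results.MP_e426f4_ag.ProductsOfConics (WB)

/-- For ALL integers `k` with `||k| - v| ≤ W` the property `WB F a b T N k` holds: approximation of level `N` at the primes of `T`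
of the local points of `yᵢ² - aᵢ zᵢ² = bᵢ t (F(t) + k) ≠ 0` orthogonal to the algebras `(aᵢ, t)`. -/
def Near {r : ℕ} (F : ℤ[X]) (a b : Fin r → ℤ) (T : Finset Nat.Primes) (N : ℕ) (W v : ℝ) : Prop :=
  ∀ k : ℤ, |(|k| : ℝ) - v| ≤ W → WB F a b T N k

/-- **Theorem.** Let `F` be an integral polynomial of degree at least `1`, `aᵢ`, `bᵢ` nonzero integers, and let `T` contain the primes `p`
which are at most twice the degree or divide the leading coefficient of `F`, an `aᵢ` or a `bᵢ`. Then for all `N` and `U` the
property `Near F a b T N` holds for almost all values of functions of two variables with few coincidences on arbitrary dense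
sets, with the density `1 / (1 + log X) ^ U` of exceptions (`OnDense`).
The least residues modulo `p` of `f(a, b) + g(a) + h(b)` are such a function, bounded by `X = p`, for all primes `p`, all
polynomials `f` modulo `p` with a monomial which contains both variables, arbitrary functions `g` and `h`, and arbitrary sets of
residues. -/
theorem result :
    (∀ (r : ℕ) (F : ℤ[X]), 1 ≤ F.natDegree → ∀ a b : Fin r → ℤ, (∀ i, a i ≠ 0) → (∀ i, b i ≠ 0) → ∀ T : Finset Nat.Primes,
      (∀ p : Nat.Primes, ((p : ℕ) ≤ 2 * F.natDegree ∨ ((p : ℕ) : ℤ) ∣ F.leadingCoeff * ∏ i, (a i * b i)) → p ∈ T) →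
      ∀ N U : ℕ, OnDense (fun X => 1 / (1 + Real.log X) ^ U) (Near F a b T N)) ∧
    ∀ (p : ℕ) [Fact p.Prime] (d : ℕ) (f : MvPolynomial (Fin 2) (ZMod p)), f.totalDegree ≤ d →
      (∃ m ∈ f.support, m 0 ≠ 0 ∧ m 1 ≠ 0) → ∀ (g h : ZMod p → ZMod p) (A B : Finset (ZMod p)),
        Rare d A B (fun a b => (((MvPolynomial.eval ![a, b] f + g a + h b).val : ℕ) : ℝ)) := by
  classical
  refine ⟨fun r F hF a b ha hb T hT N U => ?_, residues⟩
  obtain ⟨X₀, h⟩ := ProductsOfConics.result r F hF a b ha hb T hT N U
  refine on_dense_int_pow (Good := WB F a b T N) (U := U) ⟨X₀, fun x hx => ?_⟩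
  convert h x hx using 3

end Pool.Agent.Results.MP_e426f4_ag.MixedOnDenseSets
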