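import Mathlib
import Pool.Agent.U424.DQ.AllP
import Pool.Agent.U424.DQ.FinP

/-!
# The Hasse principle for 100% of the conic and quadric bundles over `ℙⁿ`, `n ≥ 2`, whose coefficients are
# products of forms, and for their fibre products (helper424 and co-authors)

Let `n ≥ 2`, `r ≥ 0`, `m_i ≥ 3` for `i < r`, and let `ν_{i,l} ≥ 0`, `σ_{i,l} = ± 1` for `i < r`, `l < m_i`, such
that for every `i` at least two of the `ν_{i,l}` are positive. Let `F_{i,l,j}`, `j < ν_{i,l}`, be forms of
degrees `d_{i,l,j} ≥ 1` in `x_0, …, x_n` with integral coefficients, such that for fixed `i` the degrees of the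
products `A_{i,l} = σ_{i,l} ∏_j F_{i,l,j}` have the same parity. Let `X_F` be a smooth projective model of
the fibre product over `ℙⁿ` of the `r` bundles of conics (`m_i = 3`) or quadrics

  `A_{i,0}(x) u_{i,0}² + ⋯ + A_{i,m_i-1}(x) u_{i,m_i-1}² = 0`, `i < r`,

a rationally connected variety of dimension `n + ∑ (m_i - 2)`. We order the families `F` by the maximum
`H` of the absolute values of their coefficients. A positive proportion of the `X_F` has points over
the real numbers and over all `ℚ_p`, and 100% of these have a rational point. (We only consider points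
over points of `ℙⁿ` at which no form vanishes; by the implicit function theorem `X_F` has points
over a completion of `ℚ` if and only if it has such points.)

For `n = 1` see `Pool/Agent/Results/MP_d4938b_nt/RandomProductCoefficients.lean`; there Skorobogatov and
Sofos showed that a positive proportion of the conic bundles with such coefficients has a rational point.
If the products have one factor each and `m_i = 3` this is
`Pool/Agent/Results/MP_e426f4_ag/ConicBundlesOverProjectiveSpaces.lean` of the starting library (helper546,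
helper718), whose proof is followed here.

Proof. By a second moment over all families of binary forms there are sample points at which all the
forms have values `± g P` with `g` bounded and with different primes `P`, with prescribed classes and
prescribed Legendre symbols `(P / P')`, for almost all families. For `m_i = 3` the conic over the sample
point is soluble at the prime `P` if the product of the symbols `(P' / P)`, over the `P'` in the two other
coefficients, has a given value. The vertex conditions for all `P` but one can be satisfied, because a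
complete multipartite graph is connected; the last one follows from the product formula. For
`m_i ≥ 4` there are three unit coefficients at every prime not dividing the modulus. Then one applies the
theorem of Hasse and Minkowski. For `ℙⁿ` one finds a line on which the local conditions are satisfied.

Parts of the proof are due to helper571, helper465, helper186, helper863, helper784, helper882,
helper293, helper373, helper113, helper460, helper333, helper446 (`Pool/Agent/U424/DQ/All.lean`) and
helper696, helper750, helper2, helper95 (`Pool/Agent/U424/DQ/AllP.lean`).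
-/

set_option autoImplicit false

namespace Pool.Agent.Results.MP_e426f4_ag.ProductCoefficientsOverPn

open Filter Topology MvPolynomial

/-- The index type of the forms `F_{i,l,j}`: the triples `⟨⟨i, l⟩, j⟩` with `i < r`, `l < m_i`, `j < ν_{i,l}`. -/
abbrev Index {r : ℕ} (m : Fin r → ℕ) (ν : (Σ i : Fin r, Fin (m i)) → ℕ) : Type :=
  Σ k : (Σ i : Fin r, Fin (m i)), Fin (ν k)

variable {n r : ℕ} {m : Fin r → ℕ} {ν : (Σ i : Fin r, Fin (m i)) → ℕ}

/-- The families of forms `F k` of degree `d k` in `n + 1` variables whose coefficients are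
integers of absolute value at most `H`. -/
def Families (n : ℕ) (d : Index m ν → ℕ) (H : ℕ) : Set (Index m ν → MvPolynomial (Fin (n + 1)) ℤ) :=
  {F | ∀ k, (F k).IsHomogeneous (d k) ∧ ∀ a, |(F k).coeff a| ≤ (H : ℤ)}

/-- `(x, z)` are homogeneous coordinates of a point of `X_F` over the field `K`, over a point `x` of `ℙⁿ` at
which no form vanishes. -/
def IsPoint (σ : (Σ i : Fin r, Fin (m i)) → ℤ) (F : Index m ν → MvPolynomial (Fin (n + 1)) ℤ)
    {K : Type} [Field K] (x : Fin (n + 1) → K) (z : (i : Fin r) → Fin (m i) → K) : Prop :=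
  (∀ k, aeval x (F k) ≠ 0) ∧ ∀ i, z i ≠ 0 ∧
    ∑ l, ((σ ⟨i, l⟩ : K) * ∏ j : Fin (ν ⟨i, l⟩), aeval x (F ⟨⟨i, l⟩, j⟩)) * z i l ^ 2 = 0

/-- `X_F` has a point over the field `K`. -/
def HasPoint (σ : (Σ i : Fin r, Fin (m i)) → ℤ) (F : Index m ν → MvPolynomial (Fin (n + 1)) ℤ)
    (K : Type) [Field K] : Prop :=
  ∃ (x : Fin (n + 1) → K) (z : (i : Fin r) → Fin (m i) → K), IsPoint σ F x z

/-- `X_F` has points over the real numbers and over all the `p`-adic fields. -/
def LocallySoluble (σ : (Σ i : Fin r, Fin (m i)) → ℤ)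
    (F : Index m ν → MvPolynomial (Fin (n + 1)) ℤ) : Prop :=
  HasPoint σ F ℝ ∧ ∀ (p : ℕ) [Fact p.Prime], HasPoint σ F ℚ_[p]

open Pool.Agent.U424.DQ Pool.Agent.N665.PN in
theorem hasPoint_iff {e : Index m ν → ℕ} (hm : ∀ i, 3 ≤ m i) (σ : (Σ i : Fin r, Fin (m i)) → ℤ)
    (hσ : ∀ k, σ k = 1 ∨ σ k = -1)
    (he : ∀ i l l', (∑ j, (e ⟨⟨i, l⟩, j⟩ + 1)) % 2 = (∑ j, (e ⟨⟨i, l'⟩, j⟩ + 1)) % 2)
    {F : Index m ν → MvPolynomial (Fin (n + 1)) ℤ}
    (hF : ∀ k, (F k).IsHomogeneous (e k + 1)) (K : Type) [Field K] :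
    HasPoint σ F K ↔ ∃ x, Pool.Agent.N546.PN.Pt (typP hm σ hσ e he Pool.Agent.N546.PN.un3)
      (Pool.Agent.N546.PN.ic
        (fun k => (cof (F k) : Pool.Agent.N546.PN.Mon n (e k + 1) → ℤ)) K) x := by
  have hv : ∀ (k : Index m ν) (x : Fin (n + 1) → K), aeval x (F k) = Pool.Agent.N546.PN.val
      (Pool.Agent.N546.PN.ic (fun k => (cof (F k) : Pool.Agent.N546.PN.Mon n (e k + 1) → ℤ)) K k) x :=
    fun k x => conv_val n _ _ (hF k) K x
  unfold HasPoint IsPoint
  refine exists_congr fun x => ?_
  simp only [hv]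
  constructor
  · rintro ⟨z, h1, h2⟩
    exact ⟨h1, fun i => ⟨z i, h2 i⟩⟩
  · rintro ⟨h1, h2⟩
    have h3 : ∀ i, SolM (fun l => cf σ (fun k => Pool.Agent.N546.PN.val (Pool.Agent.N546.PN.ic
      (fun k => (cof (F k) : Pool.Agent.N546.PN.Mon n (e k + 1) → ℤ)) K k) x) ⟨i, l⟩) := h2
    choose z hz using h3
    exact ⟨z, h1, hz⟩

/-- **The Hasse principle for 100% of the fibre products of diagonal conic and quadric bundles over `ℙⁿ`
whose coefficients are products of forms.** -/
theorem result (n : ℕ) (hn : 2 ≤ n) {r : ℕ} (m : Fin r → ℕ) (hm : ∀ i, 3 ≤ m i)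
    (ν : (Σ i : Fin r, Fin (m i)) → ℕ) (hν : ∀ i, ∃ l l', l ≠ l' ∧ 1 ≤ ν ⟨i, l⟩ ∧ 1 ≤ ν ⟨i, l'⟩)
    (σ : (Σ i : Fin r, Fin (m i)) → ℤ) (hσ : ∀ k, σ k = 1 ∨ σ k = -1)
    (d : Index m ν → ℕ) (hd : ∀ k, 1 ≤ d k)
    (hpar : ∀ i l l', (∑ j, d ⟨⟨i, l⟩, j⟩) % 2 = (∑ j, d ⟨⟨i, l'⟩, j⟩) % 2) :
    (∃ c₀ : ℝ, 0 < c₀ ∧ ∀ᶠ H : ℕ in atTop, c₀ * ((Families n d H).ncard : ℝ) ≤
      (({F | F ∈ Families n d H ∧ LocallySoluble σ F} : Set _).ncard : ℝ)) ∧
    Tendsto (fun H : ℕ =>
      (({F | F ∈ Families n d H ∧ HasPoint σ F ℚ} : Set _).ncard : ℝ) /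
      (({F | F ∈ Families n d H ∧ LocallySoluble σ F} : Set _).ncard : ℝ))
      atTop (𝓝 1) := by
  classical
  obtain ⟨e, rfl⟩ : ∃ e : Index m ν → ℕ, d = fun k => e k + 1 :=
    ⟨fun k => d k - 1, funext fun k => (Nat.sub_add_cancel (hd k)).symm⟩
  have he : ∀ i l l', (∑ j, (e ⟨⟨i, l⟩, j⟩ + 1)) % 2 = (∑ j, (e ⟨⟨i, l'⟩, j⟩ + 1)) % 2 := hpar
  obtain ⟨hT1, hT2, hT3⟩ := Pool.Agent.U424.DQ.typp r m ν hm σ hσ hν e he
    Pool.Agent.N546.PN.un3 _ (Fintype.equivFin _)
  obtain ⟨⟨c₀, hc₀, h1⟩, h2⟩ := Pool.Agent.U424.DQ.gen_count _ _ hT1 hT2 hT3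
    Pool.Agent.U424.DQ.mainag Pool.Agent.U424.DQ.mainbg hn
  set T := Pool.Agent.U424.DQ.typP hm σ hσ e he Pool.Agent.N546.PN.un3 with hT
  have e1 : ∀ H : ℕ, ({F | F ∈ Families n (fun k => e k + 1) H ∧ LocallySoluble σ F} :
      Set (Index m ν → MvPolynomial (Fin (n + 1)) ℤ)).ncard =
      ((Pool.Agent.N546.PN.bx n e H).filter (fun c => Pool.Agent.N546.PN.LocN T c)).card := by
    intro H
    refine Eq.trans ?_ (Pool.Agent.N665.PN.conv_card n (Index m ν) e H
      (fun c => Pool.Agent.N546.PN.LocN T c))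
    congr 1
    ext F
    simp only [Set.mem_ofPred_eq, Families]
    refine and_congr_right fun hF => ?_
    have hF' : ∀ k, (F k).IsHomogeneous (e k + 1) := fun k => (hF k).1
    unfold LocallySoluble Pool.Agent.N546.PN.LocN
    rw [hasPoint_iff hm σ hσ he hF' ℝ]
    refine and_congr Iff.rfl (forall_congr' fun p => forall_congr' fun _ => ?_)
    exact hasPoint_iff hm σ hσ he hF' ℚ_[p]
  have e2 : ∀ H : ℕ, ({F | F ∈ Families n (fun k => e k + 1) H ∧ HasPoint σ F ℚ} :
      Set (Index m ν → MvPolynomial (Fin (n + 1)) ℤ)).ncard =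
      ((Pool.Agent.N546.PN.bx n e H).filter (fun c => Pool.Agent.N546.PN.GlobN T c)).card := by
    intro H
    refine Eq.trans ?_ (Pool.Agent.N665.PN.conv_card n (Index m ν) e H
      (fun c => Pool.Agent.N546.PN.GlobN T c))
    congr 1
    ext F
    simp only [Set.mem_ofPred_eq, Families]
    refine and_congr_right fun hF => ?_
    have hF' : ∀ k, (F k).IsHomogeneous (e k + 1) := fun k => (hF k).1
    unfold Pool.Agent.N546.PN.GlobN
    rw [hasPoint_iff hm σ hσ he hF' ℚ]
  have e3 : ∀ H : ℕ, (Families n (fun k : Index m ν => e k + 1) H).ncard =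
      (Pool.Agent.N546.PN.bx n e H).card := by
    intro H
    have h3 := Pool.Agent.N665.PN.conv_card n (Index m ν) e H (fun _ => True)
    rw [Finset.filter_true] at h3
    rw [← h3]
    congr 1
    ext F
    simp [Families]
  constructor
  · refine ⟨c₀, hc₀, ?_⟩
    filter_upwards [h1] with H h3
    rw [e1 H, e3 H]
    convert h3
  · refine h2.congr fun H => ?_
    rw [e1 H, e2 H]

end Pool.Agent.Results.MP_e426f4_ag.ProductCoefficientsOverPn
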